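import Pool.Agent.Lib.MP_52f683_gt.F.Main
import Pool.Agent.Lib.MP_52f683_gt.Cls.Finite

set_option autoImplicit false

open Pool.Agent.Lib.MP_52f683_gt in
/-- A space is thin exactly when it is homeomorphic to the product of a finite discrete space
and a finite indiscrete space. -/
theorem Pool.Agent.Results.MP_52f683_gt.Classification.result
    (S : Type*) [TopologicalSpace S] :
    (∀ A B : Set S, Nonempty (A ≃ₜ B) → ∃ h : S ≃ₜ S, ⇑h '' A = B) ↔
      ∃ (D I : Type) (_ : TopologicalSpace D) (_ : TopologicalSpace I), Finite D ∧ Finite I ∧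
        DiscreteTopology D ∧ IndiscreteTopology I ∧ Nonempty (S ≃ₜ D × I) := by
  constructor
  · intro thin
    have hS : Thin S := thin
    have : Finite S := by
      by_contra hn
      have : Infinite S := not_finite_iff_infinite.1 hn
      exact hS.false
    have := hS.r0
    exact Cls.exists_prod hS.homog
  · rintro ⟨D, I, _, _, _, _, _, _, ⟨g⟩⟩ A B ⟨e⟩
    obtain ⟨h, hh⟩ := Cls.exists_extension_of_homeomorph g e
    exact ⟨h, Cls.image_eq_of_extends e hh⟩
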